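import Pool.Agent.W102.TD.Defs

set_option autoImplicit false

namespace Pool.Agent.W469.TD.COEF

open Pool.Agent.W102.TD LaurentPolynomial

theorem c1 (p : LaurentPolynomial ℚ) (d : ℤ) : (xa * p).coeff d = p.coeff (d - 1) / 2 := by
  unfold xa
  rw [← LaurentPolynomial.single_eq_C_mul_T]
  rw [AddMonoidAlgebra.coeff_single_mul_eq_mul_coeff (d - 1) (fun m' _ => by omega)]
  ring

theorem c2 (p : LaurentPolynomial ℚ) (d : ℤ) : (xb * p).coeff d = p.coeff (d + 1) / 2 := by
  unfold xb
  rw [← LaurentPolynomial.single_eq_C_mul_T]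
  rw [AddMonoidAlgebra.coeff_single_mul_eq_mul_coeff (d + 1) (fun m' _ => by omega)]
  ring

theorem c0 (d : ℤ) : ((1 : LaurentPolynomial ℚ)).coeff d = if d = 0 then 1 else 0 := by
  rw [AddMonoidAlgebra.one_def, AddMonoidAlgebra.coeff_single, Finsupp.single_apply]
  by_cases h : d = 0
  · rw [if_pos h, if_pos h.symm]
  · rw [if_neg h, if_neg (fun h' => h h'.symm)]

theorem COEF : Pool.Agent.W102.TD.COEF := by
  intro w
  induction w with
  | nil =>
    intro e e' d
    cases e <;> cases e' <;> simp [Mw, ix, cnt, c0]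
  | cons c w ih =>
    intro e e' d
    have hM : Mw xa xb (c :: w) = Lm xa xb c * Mw xa xb w := by
      simp [Mw]
    rw [hM, Matrix.mul_apply, Fin.sum_univ_two, List.length_cons, pow_succ]
    have h0 := fun d => ih false e' d
    have h1 := fun d => ih true e' d
    simp only [ix] at h0 h1 ⊢
    cases c <;> cases e <;> simp [Lm, cnt, c1, c2, h0, h1] <;> field_simp

end Pool.Agent.W469.TD.COEF
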