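import Pool.Agent.W102.TD.Defs

set_option autoImplicit false

namespace Pool.Agent.W469.TD.UCLOSED

open Pool.Agent.W102.TD

theorem downL : ∀ (v w : List Bool), down v w = true → down v (true :: w) = true := by
  intro v
  induction v with
  | nil => intro w h; simp [down] at h
  | cons c v ih =>
    intro w h
    cases c with
    | false => simp [down]
    | true =>
      cases w with
      | nil => simp [down] at h
      | cons d w =>
        cases d with
        | false => simp [down] at h
        | true =>
          simp only [down] at h ⊢
          exact ih w h

theorem downD : ∀ (u v w : List Bool), down (u ++ true :: v) w = true → down (u ++ v) w = true := by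
  intro u
  induction u with
  | nil =>
    intro v w h
    cases w with
    | nil => simp [down] at h
    | cons d w =>
      cases d with
      | false => simp [down] at h
      | true =>
        simp only [List.nil_append, down] at h
        exact downL v w h
  | cons c u ih =>
    intro v w h
    cases w with
    | nil => cases c <;> simp [down] at h
    | cons d w =>
      cases c with
      | false =>
        cases d with
        | false =>
          simp only [List.cons_append, down] at h ⊢
          exact ih v w h
        | true => simp [down]
      | true =>
        cases d with
        | false => simp [down] at h
        | true =>
          simp only [List.cons_append, down] at h ⊢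
          exact ih v w h

theorem UCLOSED : Pool.Agent.W102.TD.UCLOSED := by
  intro w u v h
  unfold U at h ⊢
  rw [Finset.mem_filter, List.mem_toFinset, List.mem_sublists] at h ⊢
  have hs : List.Sublist (u ++ v) (u ++ true :: v) :=
    List.Sublist.append (List.Sublist.refl u) (List.sublist_cons_self true v)
  refine ⟨hs.trans h.1, ?_⟩
  rcases h.2 with h2 | h2
  · left
    exact (List.Sublist.append hs (List.Sublist.refl [true])).trans h2
  · right
    exact downD u v w h2

end Pool.Agent.W469.TD.UCLOSED
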